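import Mathlib

/-!
# Nordhaus-Gaddum bounds for total domination when the smaller minimum degree is four

For every `k ≥ 2` the complement `G` of the disjoint union of `k` copies of the bipartite
complement of the Heawood graph is a connected graph of order `n = 14 k`, the smaller of the
minimum degrees of `G` and of its complement is `4`, and the total domination numbers of `G` and of
its complement are `2` and `3 n / 7`.  So their sum is `3 n / 7 + 2` and their product is
`6 n / 7`, which are larger than `2 n / 5 + 2` and `4 n / 5`.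
-/

set_option autoImplicit false

namespace Pool.Agent.Results.MP_4101c8_co.ComplementOfHeawoodCopies

/-- `S` is a total dominating set of `G`: every vertex is adjacent to some vertex of `S`. -/
def IsTotalDominating {V : Type} (G : SimpleGraph V) (S : Finset V) : Prop :=
  ∀ v : V, ∃ u ∈ S, G.Adj v u

/-- The total domination number: the least cardinality of a total dominating set. -/
noncomputable def totalDomNumber {V : Type} (G : SimpleGraph V) : ℕ :=
  sInf {m : ℕ | ∃ S : Finset V, IsTotalDominating G S ∧ S.card = m}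

/-- The minimum degree: the least number of neighbours of a vertex. -/
noncomputable def minDeg {V : Type} (G : SimpleGraph V) : ℕ :=
  sInf (Set.range fun v : V => (G.neighborSet v).ncard)

/-- The smaller of the minimum degrees of a graph and its complement. -/
noncomputable def minDegStar {V : Type} (G : SimpleGraph V) : ℕ :=
  min (minDeg G) (minDeg Gᶜ)

/-! ### The graph -/

/-- Adjacency in the bipartite complement of the Heawood graph: the point `p` is joined to the
line `{l, l + 1, l + 3}` when it does not lie on it. -/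
def cross (p l : Fin 7) : Bool := !(p == l || p == l + 1 || p == l + 3)

/-- Adjacency on the two sides. -/
def adj7 (b : Bool) (x y : Fin 7) : Bool := if b then cross y x else cross x y

/-- The disjoint union of `k` copies of the bipartite complement of the Heawood graph. -/
def copies (k : ℕ) : SimpleGraph (Fin k × Bool × Fin 7) where
  Adj u v := u.1 = v.1 ∧ v.2.1 = !u.2.1 ∧ adj7 u.2.1 u.2.2 v.2.2 = true
  symm := ⟨by
    rintro ⟨i, b, x⟩ ⟨j, c, y⟩ ⟨h1, h2, h3⟩
    simp only at h1 h2 h3 ⊢
    subst h1 h2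
    refine ⟨rfl, by simp, ?_⟩
    cases b <;> simpa [adj7] using h3⟩
  loopless := ⟨by
    rintro ⟨i, b, x⟩ ⟨_, h2, _⟩
    cases b <;> simp at h2⟩

lemma adj_iff {k : ℕ} (i j : Fin k) (b c : Bool) (x y : Fin 7) :
    (copies k).Adj (i, b, x) (j, c, y) ↔ i = j ∧ c = !b ∧ adj7 b x y = true := Iff.rfl

/-- A set of vertices of one side meeting all neighbourhoods of the other side has at least three
elements. -/
lemma three_le : ∀ (b : Bool) (T : Finset (Fin 7)),
    (∀ x : Fin 7, ∃ y ∈ T, adj7 b x y = true) → 3 ≤ T.card := by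
  decide +kernel

lemma three_works : ∀ (b : Bool) (x : Fin 7), ∃ y : Fin 7, y < 3 ∧ adj7 b x y = true := by
  decide

lemma four_nbrs : ∀ (b : Bool) (x : Fin 7),
    (Finset.univ.filter fun y : Fin 7 => adj7 b x y = true).card = 4 := by
  decide

lemma neighborSet_copies {k : ℕ} (i : Fin k) (b : Bool) (x : Fin 7) :
    (copies k).neighborSet (i, b, x) =
      (fun y : Fin 7 => ((i, !b, y) : Fin k × Bool × Fin 7)) ''
        ((Finset.univ.filter fun y : Fin 7 => adj7 b x y = true : Finset (Fin 7)) : Set (Fin 7)) := by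
  ext ⟨j, c, y⟩
  simp only [SimpleGraph.mem_neighborSet, adj_iff, Set.mem_image, Finset.coe_filter,
    Finset.mem_univ, true_and, Set.mem_ofPred_eq, Prod.mk.injEq]
  constructor
  · rintro ⟨rfl, rfl, h⟩
    exact ⟨y, h, rfl, rfl, rfl⟩
  · rintro ⟨z, h, rfl, rfl, rfl⟩
    exact ⟨rfl, rfl, h⟩

lemma ncard_copies {k : ℕ} (v : Fin k × Bool × Fin 7) :
    ((copies k).neighborSet v).ncard = 4 := by
  obtain ⟨i, b, x⟩ := v
  rw [neighborSet_copies, Set.ncard_image_of_injective _ (by
    intro y z h
    simpa using h), Set.ncard_coe_finset, four_nbrs]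

lemma minDeg_copies {k : ℕ} (hk : 2 ≤ k) : minDeg (copies k) = 4 := by
  have : (Set.range fun v : Fin k × Bool × Fin 7 => ((copies k).neighborSet v).ncard) = {4} := by
    ext m
    constructor
    · rintro ⟨v, rfl⟩
      exact ncard_copies v
    · rintro rfl
      exact ⟨(⟨0, by omega⟩, false, 0), ncard_copies _⟩
  rw [minDeg, this]
  simp

lemma minDeg_compl {k : ℕ} (hk : 2 ≤ k) : 4 ≤ minDeg (copies k)ᶜ := by
  refine le_csInf ⟨_, ⟨(⟨0, by omega⟩, false, 0), rfl⟩⟩ ?_
  rintro m ⟨⟨i, b, x⟩, rfl⟩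
  have hsub : (fun y : Fin 7 => ((i, b, y) : Fin k × Bool × Fin 7)) ''
      ((Finset.univ.erase x : Finset (Fin 7)) : Set (Fin 7)) ⊆ (copies k)ᶜ.neighborSet (i, b, x) := by
    rintro _ ⟨y, hy, rfl⟩
    simp only [Finset.coe_erase, Finset.coe_univ, Set.mem_sdiff, Set.mem_univ,
      Set.mem_singleton_iff, true_and] at hy
    simp only [SimpleGraph.mem_neighborSet, SimpleGraph.compl_adj, ne_eq, Prod.mk.injEq, true_and,
      adj_iff]
    refine ⟨fun h => hy h.symm, ?_⟩
    rintro ⟨h, _⟩
    cases b <;> simp at h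
  have h6 : ((fun y : Fin 7 => ((i, b, y) : Fin k × Bool × Fin 7)) ''
      ((Finset.univ.erase x : Finset (Fin 7)) : Set (Fin 7))).ncard = 6 := by
    rw [Set.ncard_image_of_injective _ (by
      intro y z h
      simpa using h), Set.ncard_coe_finset, Finset.card_erase_of_mem (Finset.mem_univ _)]
    rfl
  have := Set.ncard_le_ncard hsub (Set.toFinite _)
  simp only
  omega

lemma compl_adj_of_ne {k : ℕ} {u v : Fin k × Bool × Fin 7} (h : u.1 ≠ v.1) :
    (copies k)ᶜ.Adj u v := by
  rw [SimpleGraph.compl_adj]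
  refine ⟨fun h' => h (by rw [h']), fun h' => h h'.1⟩

lemma exists_other {k : ℕ} (hk : 2 ≤ k) (i : Fin k) : ∃ j : Fin k, i ≠ j := by
  by_cases h : i = ⟨0, by omega⟩
  · refine ⟨⟨1, by omega⟩, ?_⟩
    rw [h]
    simp [Fin.ext_iff]
  · exact ⟨⟨0, by omega⟩, h⟩

lemma connected_compl {k : ℕ} (hk : 2 ≤ k) : (copies k)ᶜ.Connected := by
  have hne : Nonempty (Fin k × Bool × Fin 7) := ⟨(⟨0, by omega⟩, false, 0)⟩
  refine SimpleGraph.Connected.mk ?_
  intro u v
  by_cases h : u.1 = v.1
  · obtain ⟨j, hj⟩ := exists_other hk u.1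
    have h1 : (copies k)ᶜ.Adj u (j, false, 0) := compl_adj_of_ne hj
    have h2 : (copies k)ᶜ.Adj (j, false, 0) v := compl_adj_of_ne (by
      simp only
      rw [← h]
      exact hj.symm)
    exact h1.reachable.trans h2.reachable
  · exact (compl_adj_of_ne h).reachable

lemma tdn_compl {k : ℕ} (hk : 2 ≤ k) : totalDomNumber (copies k)ᶜ = 2 := by
  classical
  apply le_antisymm
  · refine Nat.sInf_le ⟨{((⟨0, by omega⟩ : Fin k), false, 0), ((⟨1, by omega⟩ : Fin k), false, 0)},
      ?_, ?_⟩
    · intro v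
      by_cases h : v.1 = ⟨0, by omega⟩
      · refine ⟨((⟨1, by omega⟩ : Fin k), false, 0), by simp, compl_adj_of_ne ?_⟩
        rw [h]
        simp [Fin.ext_iff]
      · exact ⟨((⟨0, by omega⟩ : Fin k), false, 0), by simp, compl_adj_of_ne h⟩
    · rw [Finset.card_pair]
      simp [Fin.ext_iff]
  · have hne : {m : ℕ | ∃ S : Finset (Fin k × Bool × Fin 7),
        IsTotalDominating (copies k)ᶜ S ∧ S.card = m}.Nonempty := by
      refine ⟨_, Finset.univ, ?_, rfl⟩
      intro v
      obtain ⟨j, hj⟩ := exists_other hk v.1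
      exact ⟨(j, false, 0), by simp, compl_adj_of_ne hj⟩
    refine le_csInf hne ?_
    rintro m ⟨S, hS, rfl⟩
    obtain ⟨u, hu, -⟩ := hS ((⟨0, by omega⟩ : Fin k), false, 0)
    obtain ⟨w, hw, huw⟩ := hS u
    exact Finset.one_lt_card.2 ⟨u, hu, w, hw, huw.ne⟩

lemma tdn_copies {k : ℕ} : totalDomNumber (copies k) = 6 * k := by
  classical
  have hwork : IsTotalDominating (copies k)
      ((Finset.univ : Finset (Fin k)) ×ˢ ((Finset.univ : Finset Bool) ×ˢ
        (Finset.univ.filter fun y : Fin 7 => y < 3))) := by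
    rintro ⟨i, b, x⟩
    obtain ⟨y, hy, hxy⟩ := three_works b x
    exact ⟨(i, !b, y), by simp [hy], rfl, rfl, hxy⟩
  apply le_antisymm
  · refine Nat.sInf_le ⟨_, hwork, ?_⟩
    rw [Finset.card_product, Finset.card_product]
    have : (Finset.univ.filter fun y : Fin 7 => y < 3).card = 3 := by decide
    rw [this]
    simp
    ring
  · refine le_csInf ⟨_, _, hwork, rfl⟩ ?_
    rintro m ⟨S, hS, rfl⟩
    have hfib : S.card = ∑ p : Fin k × Bool,
        (S.filter fun v => (v.1, v.2.1) = p).card :=
      Finset.card_eq_sum_card_fiberwise (fun v _ => Finset.mem_univ _)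
    have hthree : ∀ p : Fin k × Bool, 3 ≤ (S.filter fun v => (v.1, v.2.1) = p).card := by
      rintro ⟨i, b⟩
      have h3 := three_le (!b) ((S.filter fun v => (v.1, v.2.1) = (i, b)).image fun v => v.2.2) (by
        intro x
        obtain ⟨⟨j, c, y⟩, hjS, h1, h2, h3⟩ := hS (i, !b, x)
        simp only [Bool.not_not] at h1 h2 h3
        refine ⟨y, ?_, h3⟩
        rw [Finset.mem_image]
        refine ⟨(j, c, y), ?_, rfl⟩
        rw [Finset.mem_filter]
        exact ⟨hjS, by simp [← h1, h2]⟩)
      exact h3.trans Finset.card_image_le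
    rw [hfib]
    calc 6 * k = ∑ _p : Fin k × Bool, 3 := by
          simp
          ring
      _ ≤ _ := Finset.sum_le_sum fun p _ => hthree p

/-- **Both parts of the conjecture fail.**  For arbitrarily large `n` there is a connected graph
`G` of order `n` whose smaller minimum degree `min (δ(G)) (δ(complement))` is `4`, while the total
domination numbers of `G` and of its complement have sum `3 n / 7 + 2 > 2 n / 5 + 2` and product
`6 n / 7 > 4 n / 5`. -/
theorem result : ∀ n₀ : ℕ, ∃ n : ℕ, n₀ ≤ n ∧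
    ∃ (V : Type) (_ : Fintype V) (G : SimpleGraph V), Fintype.card V = n ∧ G.Connected ∧
      minDegStar G = 4 ∧
      ((totalDomNumber G : ℝ) + (totalDomNumber Gᶜ : ℝ) = 3 * (n : ℝ) / 7 + 2 ∧
        2 * (n : ℝ) / 5 + 2 < (totalDomNumber G : ℝ) + (totalDomNumber Gᶜ : ℝ)) ∧
      ((totalDomNumber G : ℝ) * (totalDomNumber Gᶜ : ℝ) = 6 * (n : ℝ) / 7 ∧
        4 * (n : ℝ) / 5 < (totalDomNumber G : ℝ) * (totalDomNumber Gᶜ : ℝ)) := by
  intro n₀
  have hk : 2 ≤ n₀ + 2 := by omega
  refine ⟨14 * (n₀ + 2), by omega, Fin (n₀ + 2) × Bool × Fin 7, inferInstance, (copies (n₀ + 2))ᶜ,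
    ?_, connected_compl hk, ?_, ?_⟩
  · simp
    ring
  · rw [minDegStar, compl_compl, minDeg_copies hk]
    exact min_eq_right (minDeg_compl hk)
  · rw [compl_compl, tdn_compl hk, tdn_copies]
    push_cast
    have hn : (0 : ℝ) ≤ (n₀ : ℝ) := Nat.cast_nonneg _
    refine ⟨⟨by ring, by linarith⟩, by ring, by linarith⟩

end Pool.Agent.Results.MP_4101c8_co.ComplementOfHeawoodCopies
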